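import Pool.Agent.helper54.V3.SpecT

/-! # Project v3 (MP_af9036_an): module TDE (derivatives of locally uniform limits) -/

set_option autoImplicit false

open Complex Metric Set Filter Topology MeasureTheory

namespace V3

theorem TDE_loc {U : Ultrafilter ℕ} {f : ℕ → ℂ → ℂ} {x : ℂ} {Ω : Set ℂ} (hΩ : IsOpen Ω)
    (hx : x ∈ Ω) (h : EvHol U f x) : ∃ r > (0 : ℝ), ball x r ⊆ Ω ∧
      ∀ᶠ m in (U : Filter ℕ), DifferentiableOn ℂ (f m) (ball x r) := by
  obtain ⟨r, hr, hd⟩ := h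
  obtain ⟨r', hr', hb⟩ := Metric.isOpen_iff.1 hΩ x hx
  refine ⟨min r r', lt_min hr hr', ?_, ?_⟩
  · exact (ball_subset_ball (min_le_right _ _)).trans hb
  · filter_upwards [hd] with m hm
    exact hm.mono (ball_subset_ball (min_le_left _ _))

theorem TDE_one {U : Ultrafilter ℕ} {f : ℕ → ℂ → ℂ} {F : ℂ → ℂ} {Ω : Set ℂ} (hΩ : IsOpen Ω)
    (hf : ∀ x ∈ Ω, EvHol U f x) (hF : TendstoLocallyUniformlyOn f F U Ω) :
    DifferentiableOn ℂ F Ω ∧
      TendstoLocallyUniformlyOn (fun m => deriv (f m)) (deriv F) U Ω := by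
  constructor
  · intro x hx
    obtain ⟨r, hr, hb, hd⟩ := TDE_loc hΩ hx (hf x hx)
    have h1 := (hF.mono hb).differentiableOn hd isOpen_ball
    exact ((h1 x (mem_ball_self hr)).differentiableAt (ball_mem_nhds x hr)).differentiableWithinAt
  · intro u hu x hx
    obtain ⟨r, hr, hb, hd⟩ := TDE_loc hΩ hx (hf x hx)
    have h1 := (hF.mono hb).deriv hd isOpen_ball
    obtain ⟨t, ht, hev⟩ := h1 u hu x (mem_ball_self hr)
    rw [isOpen_ball.nhdsWithin_eq (mem_ball_self hr)] at ht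
    exact ⟨t, mem_nhdsWithin_of_mem_nhds ht, hev⟩

theorem TDE_ev {U : Ultrafilter ℕ} {f : ℕ → ℂ → ℂ} {x : ℂ} (h : EvHol U f x) :
    EvHol U (fun m => deriv (f m)) x := by
  obtain ⟨r, hr, hd⟩ := h
  refine ⟨r, hr, ?_⟩
  filter_upwards [hd] with m hm
  exact hm.deriv isOpen_ball

theorem TDE : TDE_stmt := by
  intro U f F Ω hΩ hf hF
  obtain ⟨h1, h2⟩ := TDE_one hΩ hf hF
  obtain ⟨-, h3⟩ := TDE_one hΩ (fun x hx => TDE_ev (hf x hx)) h2
  refine ⟨h1, h2, ?_⟩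
  have e : ∀ h : ℂ → ℂ, iteratedDeriv 2 h = deriv (deriv h) := by
    intro h
    rw [iteratedDeriv_succ, iteratedDeriv_one]
  simp only [e]
  exact h3

end V3
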