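import Pool.Agent.helper54.V3.SpecT

/-! # Project v3 (MP_af9036_an): module NSU (sums over separated points) -/

set_option autoImplicit false

open Complex Metric Set Filter Topology MeasureTheory

namespace V3

theorem NSU (hNPK : NPK_stmt) : NSU_stmt := by
  intro ι p S c R hc hcR hsep hR
  have hR0 : 0 < R := lt_of_lt_of_le hc hcR
  have key : ∀ (J : ℕ) (S : Finset ι), (∀ i ∈ S, ∀ l ∈ S, i ≠ l → c ≤ ‖p i - p l‖) →
      (∀ i ∈ S, R ≤ ‖p i‖ ∧ ‖p i‖ < 2 ^ J * R) →
      ∑ i ∈ S, 1 / ‖p i‖ ^ 3 ≤ 50 / (c ^ 2 * R) * (1 - 1 / 2 ^ J) := by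
    intro J
    induction J with
    | zero =>
      intro S _ hS
      have h0 : S = ∅ := by
        rw [Finset.eq_empty_iff_forall_notMem]
        intro i hi
        have := hS i hi
        rw [pow_zero, one_mul] at this
        linarith
      rw [h0, Finset.sum_empty]
      norm_num
    | succ J ih =>
      intro S hs hS
      classical
      rw [← Finset.sum_filter_add_sum_filter_not S (fun i => ‖p i‖ < 2 ^ J * R)]
      have h1 := ih (S.filter fun i => ‖p i‖ < 2 ^ J * R)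
        (fun i hi l hl h => hs i (Finset.mem_filter.1 hi).1 l (Finset.mem_filter.1 hl).1 h)
        (fun i hi => ⟨(hS i (Finset.mem_filter.1 hi).1).1, (Finset.mem_filter.1 hi).2⟩)
      have hP : (0 : ℝ) < 2 ^ J := by positivity
      have hP1 : (1 : ℝ) ≤ 2 ^ J := one_le_pow₀ (by norm_num)
      set S' := S.filter fun i => ¬ ‖p i‖ < 2 ^ J * R with hS'
      have h2 : (S'.card : ℝ) ≤ (1 + 2 * (2 ^ (J + 1) * R) / c) ^ 2 :=
        hNPK ι p S' c (2 ^ (J + 1) * R) hc (by positivity)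
          (fun i hi l hl h => hs i (Finset.mem_filter.1 hi).1 l (Finset.mem_filter.1 hl).1 h)
          (fun i hi => (hS i (Finset.mem_filter.1 hi).1).2)
      have h3 : (1 + 2 * (2 ^ (J + 1) * R) / c) ^ 2 ≤ (5 * (2 ^ J * R) / c) ^ 2 := by
        refine pow_le_pow_left₀ (by positivity) ?_ 2
        have h4 : 1 ≤ 2 ^ J * R / c := by
          rw [one_le_div hc]
          nlinarith
        have h5 : 2 * (2 ^ (J + 1) * R) / c = 4 * (2 ^ J * R / c) := by
          rw [pow_succ]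
          ring
        have h6 : 5 * (2 ^ J * R) / c = 5 * (2 ^ J * R / c) := by ring
        rw [h5, h6]
        linarith
      have h4 : ∑ i ∈ S', 1 / ‖p i‖ ^ 3 ≤ S'.card * (1 / (2 ^ J * R) ^ 3) := by
        rw [← nsmul_eq_mul, ← Finset.sum_const]
        refine Finset.sum_le_sum fun i hi => ?_
        have h5 : 2 ^ J * R ≤ ‖p i‖ := not_lt.1 (Finset.mem_filter.1 hi).2
        exact one_div_le_one_div_of_le (by positivity) (pow_le_pow_left₀ (by positivity) h5 3)
      have h5 : (S'.card : ℝ) * (1 / (2 ^ J * R) ^ 3) ≤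
          (5 * (2 ^ J * R) / c) ^ 2 * (1 / (2 ^ J * R) ^ 3) :=
        mul_le_mul_of_nonneg_right (h2.trans h3) (by positivity)
      have h6 : (5 * (2 ^ J * R) / c) ^ 2 * (1 / (2 ^ J * R) ^ 3) =
          50 / (c ^ 2 * R) * (1 / 2 ^ (J + 1)) := by
        field_simp
        ring
      have h7 : 50 / (c ^ 2 * R) * (1 - 1 / 2 ^ (J + 1)) =
          50 / (c ^ 2 * R) * (1 - 1 / 2 ^ J) + 50 / (c ^ 2 * R) * (1 / 2 ^ (J + 1)) := by
        rw [← mul_add]
        congr 1
        rw [pow_succ]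
        field_simp
        ring
      rw [h7]
      linarith
  obtain ⟨J, hJ⟩ := pow_unbounded_of_one_lt ((∑ i ∈ S, ‖p i‖) / R) (one_lt_two)
  have h1 := key J S hsep (fun i hi => ⟨hR i hi, by
    have h2 : ‖p i‖ ≤ ∑ i ∈ S, ‖p i‖ :=
      Finset.single_le_sum (f := fun i => ‖p i‖) (fun i _ => norm_nonneg _) hi
    rw [div_lt_iff₀ hR0] at hJ
    linarith⟩)
  refine h1.trans ?_
  have h2 : 0 ≤ 50 / (c ^ 2 * R) := by positivity
  have h3 : (1 : ℝ) - 1 / 2 ^ J ≤ 1 := by
    have : (0 : ℝ) ≤ 1 / 2 ^ J := by positivity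
    linarith
  calc 50 / (c ^ 2 * R) * (1 - 1 / 2 ^ J) ≤ 50 / (c ^ 2 * R) * 1 :=
        mul_le_mul_of_nonneg_left h3 h2
    _ = 50 / (c ^ 2 * R) := mul_one _

end V3
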