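import Pool.Agent.helper54.V3.SpecE

/-! # Project v3 (MP_af9036_an): module AFF2 (entire functions with vanishing second derivative) -/

set_option autoImplicit false

open Complex Metric Set Filter Topology MeasureTheory

namespace V3

theorem AFF2 : AFF2_stmt := by
  intro h P hd hP h0
  have hcd : ContDiff ℂ 2 h := hd.contDiff
  have hcont : Continuous (iteratedDeriv 2 h) := hcd.continuous_iteratedDeriv 2 le_rfl
  have hdense : Dense Pᶜ := hP.dense_compl ℝ
  have hz : iteratedDeriv 2 h = fun _ => 0 :=
    Continuous.ext_on hdense hcont continuous_const fun x hx => h0 x hx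
  have hdd : Differentiable ℂ (deriv h) := by
    have h1 : ContDiff ℂ 1 (deriv h) := by
      have h2 : ContDiff ℂ (1 + 1) h := hcd
      exact (contDiff_succ_iff_deriv.1 h2).2.2
    exact h1.differentiable (by norm_num)
  have hd2 : ∀ x, deriv (deriv h) x = 0 := by
    intro x
    have h1 := congrFun hz x
    rw [iteratedDeriv_succ, iteratedDeriv_one] at h1
    exact h1
  have hc : ∀ x, deriv h x = deriv h 0 := fun x => is_const_of_deriv_eq_zero hdd hd2 x 0
  have hk : Differentiable ℂ fun x => h x - deriv h 0 * x :=
    hd.sub (differentiable_id.const_mul _)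
  have hk0 : ∀ x, deriv (fun x => h x - deriv h 0 * x) x = 0 := by
    intro x
    have h1 : HasDerivAt (fun x => h x - deriv h 0 * x) (deriv h x - deriv h 0 * 1) x :=
      (hd x).hasDerivAt.sub ((hasDerivAt_id x).const_mul _)
    rw [h1.deriv, hc x]
    ring
  refine ⟨h 0, deriv h 0, fun x => ?_⟩
  have h1 : h x - deriv h 0 * x = h 0 - deriv h 0 * 0 := is_const_of_deriv_eq_zero hk hk0 x 0
  rw [mul_zero, sub_zero] at h1
  rw [← h1]
  ring

end V3
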