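import Pool.Agent.helper54.V3.SpecE

/-! # Project v3 (MP_af9036_an): module GTR (the trichotomy for the group) -/

set_option autoImplicit false

open Complex Metric Set Filter Topology MeasureTheory

namespace V3

theorem GTR (hGRO : GRO_stmt) (hGLA : GLA_stmt) (hGEL : GEL_stmt) : GTR_stmt := by
  intro P A g B v q θ hL
  by_cases h : ∃ p ∈ P, A p ≠ 1
  · exact Or.inl (hGRO P A g B v q θ hL h)
  push Not at h
  obtain ⟨s, hs, hsep⟩ := hL.sep
  have hadd : ∀ p ∈ P, ∀ p' ∈ P, p + p' ∈ P := by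
    intro p hp p' hp'
    have h1 := hL.grp p hp p' hp'
    rw [h p hp, one_mul] at h1
    exact h1
  have hneg : ∀ p ∈ P, -p ∈ P := by
    intro p hp
    obtain ⟨p', hp', h1, -⟩ := hL.inv p hp
    rw [h p hp, one_mul] at h1
    have h2 : p' = -p := by
      rw [eq_neg_iff_add_eq_zero, add_comm]
      exact h1
    rw [← h2]
    exact hp'
  rcases hGLA P s hs hsep hL.zero hadd hneg with h0 | ⟨t, ht, hPt⟩ | ⟨t₁, h1, t₂, h2, h3, h4⟩
  · left
    rw [h0]
    exact Set.finite_singleton 0
  · exact Or.inr ⟨t, ht, hPt, h⟩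
  · exfalso
    have hper : ∀ p ∈ P, ∀ x, v (x + p) = v x := by
      intro p hp x
      have h5 := hL.vA p hp x
      rw [h p hp, one_mul, one_mul, add_comm] at h5
      exact h5
    have hc := hGEL v t₁ t₂ hL.vd (hper t₁ h1) (hper t₂ h2) h3 h4
    have h6 : v = fun _ => v 0 := funext fun x => hc x 0
    have h7 := (hL.v0 0 hL.zero).2
    rw [h6, deriv_const] at h7
    exact zero_ne_one h7

end V3
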