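import Pool.Agent.helper10.V3.SpecL

/-! # Project v3 (MP_af9036_an): module LOKA (assembly of part L) -/

set_option autoImplicit false

open Complex Metric Set Filter Topology MeasureTheory MPS

namespace V3S

theorem LOKA (hLPI : LPI_stmt) (hSEP : SEP_stmt) (hLMB : LMB_stmt) (hVLM : VLM_stmt)
    (hINJ : INJ_stmt) (hAFF : AFF_stmt) (hMNI : MNI_stmt) (hCMM : CMM_stmt) (hISO : ISO_stmt) :
    LOKA_stmt := by
  intro n ra Cf D hS
  obtain ⟨-, hP0, -⟩ := hLPI n ra Cf D hS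
  obtain ⟨hB1, hB2, hB3, -, -⟩ := hLMB n ra Cf D hS
  obtain ⟨hv1, hv2, hv3⟩ := hVLM n ra Cf D hS
  obtain ⟨c₀, hc₀, hsep⟩ := hSEP
  refine
    { P0 := hP0
      sep := ⟨c₀, hc₀, fun m i l h => (hsep n ra Cf (D m) (hS.good m)).1 i l h⟩
      Bdiff := hB1
      Bconv := hB2
      gg := hB3
      vdiff := hv1
      vconv := fun K hK => (hv2 K hK).1
      vzero := hv3
      inj := fun ρ hρ => (hINJ n ra Cf D hS ρ hρ).1
      small := fun ρ hρ => (hINJ n ra Cf D hS ρ hρ).2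
      A0 := (hAFF n ra Cf D hS).1
      aff := (hAFF n ra Cf D hS).2
      mini := (hMNI n ra Cf D hS).1
      bA := (hMNI n ra Cf D hS).2
      com := hCMM n ra Cf D hS
      iso := hISO n ra Cf D hS }

end V3S
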