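import Pool.Agent.helper54.V3.SpecT

/-! # Project v3 (MP_af9036_an): module NORM (normality of B, everything together) -/

set_option autoImplicit false

open Complex Metric Set Filter Topology MeasureTheory

namespace V3

theorem NORM (hNLP : NLP_stmt) (hNMO : NMO_stmt) (hNBP : NBP_stmt) (hNB2 : NB2_stmt) :
    NORM_stmt := by
  intro U ι _ _ p g c C x₁ x₂ hC
  obtain ⟨hev, B, hBd, hBt⟩ := hNMO U ι p g c C x₁ x₂ hC
  obtain ⟨gg, hg1, hg2, hg3⟩ := hNBP U ι p g c C x₁ x₂ B hC hBt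
  exact ⟨B, gg, (hNLP U ι p c hC.c0 hC.sep).1, hev, hBd, hBt, hg1, hg2, hg3,
    hNB2 U ι p g c C x₁ x₂ B gg hC hBt hg1 hg2⟩

end V3
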