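import Pool.Agent.helper54.V3.SpecE

/-! # Project v3 (MP_af9036_an): module PCO (the complement of a separated set) -/

set_option autoImplicit false

open Complex Metric Set Filter Topology MeasureTheory

namespace V3

theorem PCO (hGSF : GSF_stmt) : PCO_stmt := by
  intro P s hs hsep
  have hcl : IsClosed P := by
    rw [← closure_subset_iff_isClosed]
    intro x hx
    rw [Metric.mem_closure_iff] at hx
    obtain ⟨p, hp, hxp⟩ := hx (s / 2) (by positivity)
    by_cases hpx : x = p
    · rw [hpx]
      exact hp
    · have h0 : 0 < dist x p := dist_pos.2 hpx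
      obtain ⟨p', hp', hxp'⟩ := hx (min (s / 2) (dist x p)) (lt_min (by positivity) h0)
      have h1 : dist x p' < s / 2 := lt_of_lt_of_le hxp' (min_le_left _ _)
      have h2 : dist x p' < dist x p := lt_of_lt_of_le hxp' (min_le_right _ _)
      exfalso
      have h3 : p ≠ p' := by
        rintro rfl
        exact lt_irrefl _ h2
      have h4 := hsep p hp p' hp' h3
      rw [← dist_eq_norm] at h4
      have h5 : dist p p' ≤ dist x p + dist x p' := dist_triangle_left p p' x
      linarith
  have hco : P.Countable := by
    have h1 : P = ⋃ n : ℕ, {p ∈ P | ‖p‖ ≤ n} := by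
      ext p
      rw [mem_iUnion]
      constructor
      · intro hp
        obtain ⟨n, hn⟩ := exists_nat_ge ‖p‖
        exact ⟨n, hp, hn⟩
      · rintro ⟨n, hp, -⟩
        exact hp
    rw [h1]
    refine Set.countable_iUnion fun n => Set.Finite.countable ?_
    exact hGSF _ s n hs (fun p hp p' hp' h => hsep p hp.1 p' hp'.1 h) fun p hp => hp.2
  refine ⟨hcl, hco, ?_⟩
  have h2 : IsPathConnected Pᶜ := by
    refine hco.isPathConnected_compl_of_one_lt_rank ?_
    rw [Complex.rank_real_complex]
    norm_num
  exact h2.isConnected.isPreconnected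

end V3
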