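import Pool.Agent.helper10.V3.SpecL

/-! # Project v3 (MP_af9036_an): module PHS (surjectivity of Phi and of the charts) -/

set_option autoImplicit false

open Complex Metric Set Filter Topology MeasureTheory MPS

namespace V3S

/-- A map near the identity is onto. -/
theorem PHS_phi {Φ : ℂ → ℂ} {r η : ℝ} (hr : 0 < r) (hη : η ≤ r / 100)
    (hd : DifferentiableOn ℂ Φ (ball 0 r)) (hb : ∀ w ∈ ball (0 : ℂ) r, ‖Φ w - w‖ ≤ η)
    {u : ℂ} (hu : ‖u‖ < r / 8) : ∃ w ∈ ball (0 : ℂ) r, Φ w = u := by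
  have hsub : closedBall (0 : ℂ) (r / 2) ⊆ ball 0 r := closedBall_subset_ball (by linarith)
  have h0 : DiffContOnCl ℂ Φ (ball 0 (r / 2)) := hd.diffContOnCl_ball hsub
  have hz : (0 : ℂ) ∈ ball (0 : ℂ) r := mem_ball_self hr
  have hΦ0 : ‖Φ 0‖ ≤ η := by
    have := hb 0 hz
    rwa [sub_zero] at this
  have hsph : ∀ z ∈ sphere (0 : ℂ) (r / 2), 2 * r / 5 ≤ ‖Φ z - Φ 0‖ := by
    intro z hz'
    have h1 := hb z (hsub (sphere_subset_closedBall hz'))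
    rw [mem_sphere_zero_iff_norm] at hz'
    have h2 : ‖z‖ ≤ ‖Φ z - Φ 0‖ + ‖Φ z - z‖ + ‖Φ 0‖ := by
      have h3 : z = (Φ z - Φ 0) - (Φ z - z) + Φ 0 := by ring
      calc ‖z‖ = ‖(Φ z - Φ 0) - (Φ z - z) + Φ 0‖ := by rw [← h3]
        _ ≤ ‖(Φ z - Φ 0) - (Φ z - z)‖ + ‖Φ 0‖ := norm_add_le _ _
        _ ≤ ‖Φ z - Φ 0‖ + ‖Φ z - z‖ + ‖Φ 0‖ := by
            have := norm_sub_le (Φ z - Φ 0) (Φ z - z)
            linarith
    rw [hz'] at h2
    linarith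
  have hfr : ∃ᶠ z in 𝓝 (0 : ℂ), Φ z ≠ Φ 0 := by
    by_contra hcon
    rw [not_frequently] at hcon
    have h1 : Φ =ᶠ[𝓝 0] fun _ => Φ 0 := by
      filter_upwards [hcon] with z hz1
      exact not_not.1 hz1
    have h2 : AnalyticOnNhd ℂ Φ (ball 0 r) := hd.analyticOnNhd isOpen_ball
    have h3 := h2.eqOn_of_preconnected_of_eventuallyEq analyticOnNhd_const
      (convex_ball (0 : ℂ) r).isPreconnected hz h1
    have h4 : ((r / 2 : ℝ) : ℂ) ∈ sphere (0 : ℂ) (r / 2) := by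
      rw [mem_sphere_zero_iff_norm, Complex.norm_real, Real.norm_eq_abs,
        abs_of_pos (by positivity)]
    have h5 := hsph _ h4
    have h6 : Φ ((r / 2 : ℝ) : ℂ) = Φ 0 := h3 (hsub (sphere_subset_closedBall h4))
    rw [h6, sub_self, norm_zero] at h5
    linarith
  have h1 := h0.ball_subset_image_closedBall (by positivity) hsph hfr
  have h2 : u ∈ ball (Φ 0) (2 * r / 5 / 2) := by
    rw [mem_ball, dist_eq_norm]
    calc ‖u - Φ 0‖ ≤ ‖u‖ + ‖Φ 0‖ := norm_sub_le _ _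
      _ < 2 * r / 5 / 2 := by linarith
  obtain ⟨w, hw, hwu⟩ := h1 h2
  exact ⟨w, hsub hw, hwu⟩

theorem PHS_it {k : ℕ} [NeZero k] {f : Polynomial ℂ} {b g : ZMod k → ℂ} {G : ℕ → ℂ → ℂ}
    {Ω : Set ℂ} {Q : ℕ} (h : PPS.LevSys f b g G Ω Q) {w : ℂ} (hw : w ∈ Ω) :
    ∀ q ≤ Q, (fun z => f.eval z)^[q] (G q w) = G 0 w := by
  intro q
  induction q with
  | zero => intro _; rfl
  | succ q ih =>
    intro hq
    rw [Function.iterate_succ_apply]
    have h1 : f.eval (G (q + 1) w) = G q w := (h.rel q (by omega) w hw).1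
    show (fun z => f.eval z)^[q] (f.eval (G (q + 1) w)) = G 0 w
    rw [h1]
    exact ih (by omega)

theorem PHS_mono {D : Dat} {x : ℂ} {r C C' : ℝ} {χ : ℂ → ℂ} {G : ℕ → ℂ → ℂ} {Φ : ℂ → ℂ}
    (h : Ctl D x r C χ G Φ) (hC : C ≤ C') : Ctl D x r C' χ G Φ where
  nat := h.nat
  val := h.val
  aff := h.aff
  lev := h.lev
  g0 := h.g0
  sum := fun w hw => (h.sum w hw).trans (mul_le_mul_of_nonneg_right hC (norm_nonneg _))
  phd := h.phd
  phi := fun w hw => ⟨(h.phi w hw).1,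
    (h.phi w hw).2.1.trans (mul_le_mul_of_nonneg_right hC (norm_nonneg _)), (h.phi w hw).2.2⟩
  kc := fun q h1 h2 => (h.kc q h1 h2).trans (mul_le_mul_of_nonneg_right hC (norm_nonneg _))

theorem PHS (hCSZ : CSZ_stmt) (hCAF : CAF_stmt) (hBA1 : BA1_stmt) : PHS_stmt := by
  intro n ra Cf D hS x hx hctl
  obtain ⟨r, hr, C₀, hC₀, hev⟩ := hctl
  obtain ⟨C₁, hC₁, hcs⟩ := hCSZ n ra Cf D hS x hx
  set C : ℝ := max C₀ C₁ with hC
  have hC0 : C₀ ≤ C := le_max_left _ _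
  have hC1 : C₁ ≤ C := le_max_right _ _
  have hCpos : 0 < C := lt_of_lt_of_le hC₀ hC0
  have hlam : ∀ᶠ m in UF, C * ‖(D m).lam‖ < r / 100 := by
    have h1 : Tendsto (fun m => C * ‖(D m).lam‖) UF (𝓝 (C * ‖(0 : ℂ)‖)) :=
      ((hS.lim.mono_left UF_le).norm).const_mul C
    rw [norm_zero, mul_zero] at h1
    exact h1.eventually (gt_mem_nhds (by positivity))
  refine ⟨r, hr, C, hCpos, 9 * r / (80 * C), by positivity, ?_⟩
  filter_upwards [hev, hcs, hlam] with m h1 h2 h3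
  obtain ⟨χ, G, Φ, h⟩ := h1
  obtain ⟨h4, h5⟩ := h2 χ (2 * r) (by positivity) h.nat h.val
  obtain ⟨hsg, -, -, -, -, -, -, -, -, hzF, -⟩ := hBA1 n ra Cf (D m) (hS.good m)
  have hsg0 : 0 < ‖(D m).sg‖ := norm_pos_iff.2 hsg
  refine ⟨χ, G, Φ, PHS_mono h hC0, h5.trans (mul_le_mul_of_nonneg_right hC1 hsg0.le), ?_⟩
  intro y hy
  obtain ⟨-, -, -, hcov, -⟩ := hCAF (D m).k (D m).b (D m).g χ (2 * r) (by positivity) h.nat h.aff
  have h6 : ‖(D m).sg‖ ≤ C * ‖deriv χ 0‖ := by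
    have h7 : ‖(D m).sg‖ ≤ C₁ * ‖deriv χ 0‖ := by
      rw [div_le_iff₀ (by linarith)] at h4
      rw [mul_comm]
      exact h4
    exact h7.trans (mul_le_mul_of_nonneg_right hC1 (norm_nonneg _))
  have h8 : (D m).zz y ∈ ball (χ 0) (9 / 10 * (r / 8) * ‖deriv χ 0‖) := by
    rw [mem_ball, dist_eq_norm, h.val]
    have h9 : (D m).zz y - (D m).zz x = (D m).sg * (y - x) := by
      unfold Dat.zz
      ring
    rw [h9, norm_mul]
    rw [mem_ball, dist_eq_norm] at hy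
    calc ‖(D m).sg‖ * ‖y - x‖ < ‖(D m).sg‖ * (9 * r / (80 * C)) :=
          mul_lt_mul_of_pos_left hy hsg0
      _ ≤ (C * ‖deriv χ 0‖) * (9 * r / (80 * C)) :=
          mul_le_mul_of_nonneg_right h6 (by positivity)
      _ = 9 / 10 * (r / 8) * ‖deriv χ 0‖ := by
          field_simp
          ring
  obtain ⟨u, hu, hzu⟩ := hcov (r / 8) (by positivity) (by linarith) h8
  rw [mem_ball_zero_iff] at hu
  have h10 : C₀ * ‖(D m).lam‖ ≤ r / 100 :=
    (mul_le_mul_of_nonneg_right hC0 (norm_nonneg _)).trans h3.le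
  obtain ⟨w, hw, hwu⟩ := PHS_phi hr h10 h.phd (fun w hw => (h.phi w hw).2.1) hu
  have h11 : (D m).zz y = χ (Φ w) := by rw [hwu, hzu]
  have h12 : (D m).zz y = G (D m).k w := by rw [h11, (h.phi w hw).2.2]
  refine ⟨w, hw, h12, h11, ?_⟩
  rw [hzF, h12, PHS_it h.lev hw (D m).k le_rfl]
  exact h.g0 hw

end V3S
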