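import Pool.Agent.helper10.V3.SpecL

/-! # Project v3 (MP_af9036_an): module VLO (v is locally bounded on the regular set) -/

set_option autoImplicit false

open Complex Metric Set Filter Topology MeasureTheory MPS

namespace V3S

theorem VLO (hPHS : PHS_stmt) (hCAF : CAF_stmt) (hBA1 : BA1_stmt) : VLO_stmt := by
  intro n ra Cf D hS x hx hctl
  obtain ⟨r, hr, C, hC, ρ, hρ, hev⟩ := hPHS n ra Cf D hS x hx hctl
  refine ⟨ρ, hρ, 11 / 10 * C ^ 2, ?_⟩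
  filter_upwards [hev] with m h1
  obtain ⟨χ, G, Φ, h, h2, h3⟩ := h1
  intro y hy
  obtain ⟨w, hw, -, h4, h5⟩ := h3 y hy
  obtain ⟨hsg, hlam, -⟩ := hBA1 n ra Cf (D m) (hS.good m)
  have hsg0 : 0 < ‖(D m).sg‖ := norm_pos_iff.2 hsg
  have hlam0 : 0 < ‖(D m).lam‖ := norm_pos_iff.2 hlam
  obtain ⟨-, -, hbd, -⟩ := hCAF (D m).k (D m).b (D m).g χ (2 * r) (by positivity) h.nat h.aff
  have hw2 : w ∈ ball (0 : ℂ) (2 * r) := ball_subset_ball (by linarith) hw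
  have h6 := (hbd w hw2 (Φ w) (h.phi w hw).1).2
  have h7 : ‖w - Φ w‖ ≤ C * ‖(D m).lam‖ := by
    rw [norm_sub_rev]
    exact (h.phi w hw).2.1
  have h8 : (D m).sg * ((D m).F (D m).k y - y) = χ w - χ (Φ w) := by
    rw [← h5, ← h4]
    unfold Dat.zz
    ring
  have h9 : ‖(D m).sg‖ * ‖(D m).F (D m).k y - y‖ ≤
      ‖(D m).sg‖ * (11 / 10 * C ^ 2 * ‖(D m).lam‖) := by
    rw [← norm_mul, h8]
    calc ‖χ w - χ (Φ w)‖ ≤ 11 / 10 * ‖deriv χ 0‖ * ‖w - Φ w‖ := h6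
      _ ≤ 11 / 10 * (C * ‖(D m).sg‖) * (C * ‖(D m).lam‖) := by
          refine mul_le_mul ?_ h7 (norm_nonneg _) (by positivity)
          exact mul_le_mul_of_nonneg_left h2 (by norm_num)
      _ = ‖(D m).sg‖ * (11 / 10 * C ^ 2 * ‖(D m).lam‖) := by ring
  have h10 := le_of_mul_le_mul_left h9 hsg0
  unfold Dat.v
  rw [norm_div, div_le_iff₀ hlam0]
  exact h10

end V3S
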